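import Pool.Agent.Helper63.PG.Alg

/-! # MODULE HIS: number of colours used for one anchor -/

set_option autoImplicit false

namespace Pool.Agent.Helper70.PG

open Pool.Agent.Helper63.PG Pool.Agent.Helper63.OC Pool.Agent.Helper24.OCM

private theorem exists_last (P : ℕ → Prop) (n : ℕ) (h : ∃ u < n, P u) :
    ∃ u < n, P u ∧ ∀ w < n, P w → w ≤ u := by
  induction n with
  | zero => obtain ⟨u, hu, _⟩ := h; omega
  | succ n ih =>
    by_cases hn : P n
    · exact ⟨n, by omega, hn, fun w hw _ => by omega⟩
    · have h2 : ∃ u < n, P u := by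
        obtain ⟨u, hu, hP⟩ := h
        refine ⟨u, ?_, hP⟩
        rcases Nat.lt_or_ge u n with h | h
        · exact h
        · exact absurd ((by omega : u = n) ▸ hP) hn
      obtain ⟨u, hu, hP, hmax⟩ := ih h2
      refine ⟨u, by omega, hP, fun w hw hPw => ?_⟩
      rcases Nat.lt_or_ge w n with h | h
      · exact hmax w h hPw
      · exact absurd ((by omega : w = n) ▸ hPw) hn

private theorem ng_mono {K : ℕ} {G : SimpleGraph ℕ} {v v' a b : ℕ} (h : ng K G v a b)
    (hv : v ≤ v') : ng K G v' a b := by
  obtain ⟨w, hw, h1, h2⟩ := h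
  exact ⟨w, hw.trans hv, h1, h2⟩

private theorem ng_symm {K : ℕ} {G : SimpleGraph ℕ} {v a b : ℕ} (h : ng K G v a b) :
    ng K G v b a := by
  obtain ⟨w, hw, h1, h2⟩ := h
  exact ⟨w, hw, h2, h1⟩

private def FS (K : ℕ) (G : SimpleGraph ℕ) (v : ℕ) : Set ℕ :=
  {c | ∀ u, (_ : u < v) → cl K G u = cl K G v → anc K G u ≠ anc K G v →
    ng K G v (anc K G u) (anc K G v) → kap K G u ≠ c}

private theorem kap_eq (K : ℕ) (G : SimpleGraph ℕ) (v : ℕ) : kap K G v = sInf (FS K G v) := by
  rw [kap]
  rfl

private theorem FS_ne (K : ℕ) (G : SimpleGraph ℕ) (v : ℕ) : (FS K G v).Nonempty := by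
  refine ⟨(∑ u ∈ Finset.range v, kap K G u) + 1, fun u hu _ _ _ h => ?_⟩
  have := Finset.single_le_sum (f := fun u => kap K G u) (fun i _ => Nat.zero_le _)
    (Finset.mem_range.2 hu)
  omega

private theorem kap_mem (K : ℕ) (G : SimpleGraph ℕ) (v : ℕ) : kap K G v ∈ FS K G v := by
  rw [kap_eq]
  exact Nat.sInf_mem (FS_ne K G v)

private theorem kap_le {K : ℕ} {G : SimpleGraph ℕ} {v c : ℕ} (h : c ∈ FS K G v) :
    kap K G v ≤ c := by
  rw [kap_eq]
  exact Nat.sInf_le h

private theorem finH (K : ℕ) (G : SimpleGraph ℕ) (x v : ℕ) :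
    {c | ∃ u ≤ v, anc K G u = x ∧ kap K G u = c}.Finite := by
  refine ((Set.finite_Iic v).image (kap K G)).subset ?_
  rintro c ⟨u, hu, _, rfl⟩
  exact ⟨u, hu, rfl⟩

private theorem his_aux {K : ℕ} {G : SimpleGraph ℕ}
    (hA : ∀ v, anc K G v ≤ v ∧ isAnc K G (anc K G v) ∧ cl K G (anc K G v) = cl K G v ∧
      nr G v v (anc K G v) (2 * rr (ci K G v)))
    (x : ℕ) : ∀ v, {y | y ≠ x ∧ ng K G v x y}.Finite →
    {c | ∃ u ≤ v, anc K G u = x ∧ kap K G u = c}.ncard ≤
      1 + {y | y ≠ x ∧ ng K G v x y}.ncard := by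
  intro v
  induction v using Nat.strong_induction_on with
  | _ v ih =>
  intro hfin
  by_cases hex : ∃ u < v, anc K G u = x
  · obtain ⟨v', hv', hx', hmax⟩ := exists_last _ v hex
    have hNsub : {y | y ≠ x ∧ ng K G v' x y} ⊆ {y | y ≠ x ∧ ng K G v x y} :=
      fun y hy => ⟨hy.1, ng_mono hy.2 hv'.le⟩
    have ih' := ih v' hv' (hfin.subset hNsub)
    have hNle := Set.ncard_le_ncard hNsub hfin
    by_cases hx : anc K G v = x
    · by_cases hk : kap K G v = kap K G v'
      · have hH : {c | ∃ u ≤ v, anc K G u = x ∧ kap K G u = c} ⊆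
            {c | ∃ u ≤ v', anc K G u = x ∧ kap K G u = c} := by
          rintro c ⟨u, hu, hux, rfl⟩
          rcases Nat.lt_or_ge u v with h | h
          · exact ⟨u, hmax u h hux, hux, rfl⟩
          · have : u = v := by omega
            subst this
            exact ⟨v', le_rfl, hx', hk.symm⟩
        have := Set.ncard_le_ncard hH (finH K G x v')
        omega
      · have hH : {c | ∃ u ≤ v, anc K G u = x ∧ kap K G u = c} ⊆
            insert (kap K G v) {c | ∃ u ≤ v', anc K G u = x ∧ kap K G u = c} := by
          rintro c ⟨u, hu, hux, rfl⟩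
          rcases Nat.lt_or_ge u v with h | h
          · exact Or.inr ⟨u, hmax u h hux, hux, rfl⟩
          · have : u = v := by omega
            subst this
            exact Or.inl rfl
        have h1 := Set.ncard_le_ncard hH ((finH K G x v').insert _)
        have h2 := Set.ncard_insert_le (kap K G v)
          {c | ∃ u ≤ v', anc K G u = x ∧ kap K G u = c}
        have hcl : cl K G v' = cl K G v := by
          have e1 := (hA v').2.2.1
          have e2 := (hA v).2.2.1
          rw [hx'] at e1
          rw [hx] at e2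
          rw [← e1, ← e2]
        have hne : {y | y ≠ x ∧ ng K G v' x y} ≠ {y | y ≠ x ∧ ng K G v x y} := by
          intro heq
          apply hk
          apply le_antisymm
          · refine kap_le ?_
            intro u hu hclu hanc hng
            rw [hx] at hanc hng
            have hy : anc K G u ∈ {y | y ≠ x ∧ ng K G v x y} := ⟨hanc, ng_symm hng⟩
            rw [← heq] at hy
            rcases lt_trichotomy u v' with h | h | h
            · exact kap_mem K G v' u h (hclu.trans hcl.symm) (by rw [hx']; exact hanc)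
                (by rw [hx']; exact ng_symm hy.2)
            · subst h
              exact absurd hx' hanc
            · exact (kap_mem K G u v' h (hcl.trans hclu.symm) (by rw [hx']; exact hanc.symm)
                (by rw [hx']; exact ng_mono hy.2 h.le)).symm
          · refine kap_le ?_
            intro u hu hclu hanc hng
            rw [hx'] at hanc hng
            exact kap_mem K G v u (hu.trans hv') (hclu.trans hcl) (by rw [hx]; exact hanc)
              (by rw [hx]; exact ng_mono hng hv'.le)
        have hlt := Set.ncard_lt_ncard (lt_of_le_of_ne hNsub hne) hfin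
        omega
    · have hH : {c | ∃ u ≤ v, anc K G u = x ∧ kap K G u = c} ⊆
          {c | ∃ u ≤ v', anc K G u = x ∧ kap K G u = c} := by
        rintro c ⟨u, hu, hux, rfl⟩
        rcases Nat.lt_or_ge u v with h | h
        · exact ⟨u, hmax u h hux, hux, rfl⟩
        · have : u = v := by omega
          subst this
          exact absurd hux hx
      have := Set.ncard_le_ncard hH (finH K G x v')
      omega
  · have hH : {c | ∃ u ≤ v, anc K G u = x ∧ kap K G u = c} ⊆ {kap K G v} := by
      rintro c ⟨u, hu, hux, rfl⟩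
      rcases Nat.lt_or_ge u v with h | h
      · exact absurd ⟨u, h, hux⟩ hex
      · have : u = v := by omega
        subst this
        rfl
    have := Set.ncard_le_ncard hH (Set.finite_singleton _)
    rw [Set.ncard_singleton] at this
    omega

theorem hHIS {K : ℕ} {G : SimpleGraph ℕ}
    (hA : ∀ v, anc K G v ≤ v ∧ isAnc K G (anc K G v) ∧ cl K G (anc K G v) = cl K G v ∧
      nr G v v (anc K G v) (2 * rr (ci K G v)))
    (x v : ℕ) (hfin : ∀ u ≤ v, {y | y ≠ x ∧ ng K G u x y}.Finite) :
    {c | ∃ u ≤ v, anc K G u = x ∧ kap K G u = c}.Finite ∧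
    {c | ∃ u ≤ v, anc K G u = x ∧ kap K G u = c}.ncard ≤
      1 + {y | y ≠ x ∧ ng K G v x y}.ncard :=
  ⟨finH K G x v, his_aux hA x v (hfin v le_rfl)⟩

end Pool.Agent.Helper70.PG
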