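import Pool.Agent.Helper63.PG.Basic

/-! # MODULE PAR: parity of induced paths in the rest -/

set_option autoImplicit false

namespace Pool.Agent.Helper70.PG

open Pool.Agent.Helper63.PG

variable {V : Type*}

private theorem exists_last' (P : ℕ → Prop) (n : ℕ) (h : ∃ u < n, P u) :
    ∃ u < n, P u ∧ ∀ w < n, P w → w ≤ u := by
  induction n with
  | zero => obtain ⟨u, hu, _⟩ := h; omega
  | succ n ih =>
    by_cases hn : P n
    · exact ⟨n, by omega, hn, fun w hw _ => by omega⟩
    · have h2 : ∃ u < n, P u := by
        obtain ⟨u, hu, hP⟩ := h
        refine ⟨u, ?_, hP⟩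
        rcases Nat.lt_or_ge u n with h | h
        · exact h
        · exact absurd ((by omega : u = n) ▸ hP) hn
      obtain ⟨u, hu, hP, hmax⟩ := ih h2
      refine ⟨u, by omega, hP, fun w hw hPw => ?_⟩
      rcases Nat.lt_or_ge w n with h | h
      · exact hmax w h hPw
      · exact absurd ((by omega : w = n) ▸ hPw) hn

/-- one vertex of `T` seeing the two ends of an interval -/
private theorem apx {G : SimpleGraph V} {T : Set V} (hN : NOH G) {f : ℕ → V} {m : ℕ}
    (hf : IP G f m) (hd : ∀ i < m, ¬ Cm G T (f i) (f (i + 1))) {z : V} (hz : z ∈ T)
    {i' i : ℕ} (hi : i' < i) (him : i ≤ m) (h1 : G.Adj z (f i')) (h2 : G.Adj z (f i))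
    (hno : ∀ j, i' < j → j < i → ¬ G.Adj z (f j)) : (i - i') % 2 = 0 := by
  have h3 : i' + 2 ≤ i := by
    by_contra hcon
    have : i = i' + 1 := by omega
    subst this
    exact hd i' (by omega) ⟨z, hz, h1, h2⟩
  have h4 := hN.apex (f := fun k => f (i' + k)) (m := i - i')
    (hf.sub (a := i') (b := i - i') (by omega)) (by omega) (w := z) (fun k hk => by
      show G.Adj z (f (i' + k)) ↔ _
      constructor
      · intro h
        by_contra hcon
        exact hno (i' + k) (by omega) (by omega) h
      · rintro (rfl | rfl)
        · exact h1
        · rw [show i' + (i - i') = i by omega]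
          exact h2)
  exact Nat.even_iff.1 h4

theorem hPAR {G : SimpleGraph V} {T U : Set V} {π : V → V → ℕ} (hN : NOH G)
    (hP : PRule G T U π) {f : ℕ → V} {m : ℕ} (hf : IP G f m) (hU : ∀ i ≤ m, f i ∈ U)
    (hd : ∀ i < m, ¬ Cm G T (f i) (f (i + 1))) {s t : V} (hs : s ∈ T) (ht : t ∈ T)
    (h0 : G.Adj s (f 0)) (h1 : G.Adj t (f m)) : m % 2 = 0 ∧ s = t ∨ m % 2 = π s t ∧ s ≠ t := by
  -- one vertex seen by both
  have one : ∀ i ≤ m, s ≠ t → G.Adj s (f i) → G.Adj t (f i) → π s t = 0 := by
    intro i hi hne a b
    have := hP s hs t ht hne (fun _ => f i) 0 (IP.single G _) (fun _ _ => hU i hi)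
      (fun j hj => ⟨fun _ => by omega, fun _ => a⟩) (fun j hj => ⟨fun _ => by omega, fun _ => b⟩)
    rw [← this]
  have key : ∀ i ≤ m, (G.Adj s (f i) → i % 2 = 0) ∧
      (G.Adj t (f i) → i % 2 = 0 ∧ s = t ∨ i % 2 = π s t ∧ s ≠ t) := by
    intro i
    induction i using Nat.strong_induction_on with
    | _ i ih =>
    intro him
    rcases Nat.eq_zero_or_pos i with hi0 | hi0
    · subst hi0
      refine ⟨fun _ => rfl, fun htf => ?_⟩
      by_cases hst : s = t
      · exact Or.inl ⟨rfl, hst⟩
      · exact Or.inr ⟨(one 0 him hst h0 htf).symm, hst⟩
    · obtain ⟨i', hi', hPi', hmax⟩ := exists_last' (fun u => G.Adj s (f u) ∨ G.Adj t (f u)) i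
        ⟨0, hi0, Or.inl h0⟩
      have hnos : ∀ j, i' < j → j < i → ¬ G.Adj s (f j) := fun j hj1 hj2 hadj => by
        have := hmax j hj2 (Or.inl hadj)
        omega
      have hnot : ∀ j, i' < j → j < i → ¬ G.Adj t (f j) := fun j hj1 hj2 hadj => by
        have := hmax j hj2 (Or.inr hadj)
        omega
      obtain ⟨ihs, iht⟩ := ih i' hi' (by omega)
      have F1 : G.Adj s (f i') → G.Adj s (f i) → (i - i') % 2 = 0 := fun a c =>
        apx hN hf hd hs hi' him a c hnos
      have F2 : G.Adj t (f i') → G.Adj t (f i) → (i - i') % 2 = 0 := fun a c =>
        apx hN hf hd ht hi' him a c hnot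
      have F3 : s ≠ t → G.Adj s (f i') → ¬ G.Adj t (f i') → ¬ G.Adj s (f i) → G.Adj t (f i) →
          (i - i') % 2 = π s t := by
        intro hne a b c d
        refine hP s hs t ht hne (fun k => f (i' + k)) (i - i')
          (hf.sub (a := i') (b := i - i') (by omega)) (fun k hk => hU _ (by omega)) ?_ ?_
        · intro k hk
          show G.Adj s (f (i' + k)) ↔ _
          constructor
          · intro h
            by_contra hcon
            rcases Nat.lt_or_ge (i' + k) i with h' | h'
            · exact hnos (i' + k) (by omega) h' h
            · rw [show i' + k = i by omega] at h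
              exact c h
          · rintro rfl
            exact a
        · intro k hk
          show G.Adj t (f (i' + k)) ↔ _
          constructor
          · intro h
            by_contra hcon
            rcases Nat.eq_zero_or_pos k with h' | h'
            · subst h'
              exact b h
            · exact hnot (i' + k) (by omega) (by omega) h
          · rintro rfl
            rw [show i' + (i - i') = i by omega]
            exact d
      have F4 : s ≠ t → G.Adj t (f i') → ¬ G.Adj s (f i') → ¬ G.Adj t (f i) → G.Adj s (f i) →
          (i - i') % 2 = π s t := by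
        intro hne a b c d
        have hrev : IP G (fun k => f (i - k)) (i - i') := by
          have h := (hf.sub (a := i') (b := i - i') (by omega)).rev
          intro p q hpq hq
          have h2 : G.Adj (f (i' + (i - i' - p))) (f (i' + (i - i' - q))) ↔ q = p + 1 :=
            h p q hpq hq
          rw [show i' + (i - i' - p) = i - p by omega, show i' + (i - i' - q) = i - q by omega] at h2
          exact h2
        refine hP s hs t ht hne (fun k => f (i - k)) (i - i') hrev
          (fun k hk => hU _ (by omega)) ?_ ?_
        · intro k hk
          show G.Adj s (f (i - k)) ↔ _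
          constructor
          · intro h
            by_contra hcon
            rcases Nat.lt_or_ge k (i - i') with h' | h'
            · exact hnos (i - k) (by omega) (by omega) h
            · rw [show i - k = i' by omega] at h
              exact b h
          · rintro rfl
            exact d
        · intro k hk
          show G.Adj t (f (i - k)) ↔ _
          constructor
          · intro h
            by_contra hcon
            rcases Nat.eq_zero_or_pos k with h' | h'
            · subst h'
              exact c h
            · exact hnot (i - k) (by omega) (by omega) h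
          · rintro rfl
            rw [show i - (i - i') = i' by omega]
            exact a
      have F5 : s ≠ t → G.Adj s (f i) → G.Adj t (f i) → π s t = 0 := one i him
      have F6 : s ≠ t → G.Adj s (f i') → G.Adj t (f i') → π s t = 0 := one i' (by omega)
      by_cases hst : s = t
      · have a : G.Adj s (f i') := by
          rcases hPi' with h | h
          · exact h
          · rw [hst]; exact h
        have e1 := ihs a
        refine ⟨fun c => ?_, fun d => Or.inl ⟨?_, hst⟩⟩
        · have := F1 a c
          omega
        · have := F1 a (by rw [hst]; exact d)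
          omega
      · have iht' : G.Adj t (f i') → i' % 2 = π s t := fun b => by
          rcases iht b with h | h
          · exact absurd h.2 hst
          · exact h.1
        by_cases a : G.Adj s (f i') <;> by_cases b : G.Adj t (f i') <;>
          by_cases c : G.Adj s (f i) <;> by_cases d : G.Adj t (f i) <;>
          simp only [a, b, c, d, forall_true_left, hst, not_true_eq_false, not_false_eq_true,
            ne_eq, true_and, and_true, and_false, false_and, or_false, false_or, or_self,
            IsEmpty.forall_iff, true_implies, false_implies, implies_true] at * <;> omega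
  exact (key m le_rfl).2 h1

end Pool.Agent.Helper70.PG
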